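import Pool.Agent.W670.ML.Defs

set_option autoImplicit false

namespace Pool.Agent.W557.ML

open NumberField Pool.Agent.W670.ML

lemma fields_mono (n : ℕ) (G : Subgroup (Equiv.Perm (Fin n))) {X X' : ℝ} (h : X ≤ X') :
    fields ℚ n G X ⊆ fields ℚ n G X' := by
  rintro L ⟨h1, nf, h2⟩
  exact ⟨h1, nf, h2.trans h⟩

lemma fields_fin (h2 : S_HE) (h3 : S_DI) (n : ℕ) (G : Subgroup (Equiv.Perm (Fin n))) (X : ℝ) :
    (fields ℚ n G X).Finite := by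
  refine (h2 (AlgebraicClosure ℚ) X).subset ?_
  rintro L ⟨_, nf, hX⟩
  refine ⟨nf, ?_⟩
  have h := h3.2.1 L
  rw [h]
  exact hX

lemma N_mono (h2 : S_HE) (h3 : S_DI) (n : ℕ) (G : Subgroup (Equiv.Perm (Fin n))) {X X' : ℝ}
    (h : X ≤ X') : Pool.Agent.W670.ML.N ℚ n G X ≤ Pool.Agent.W670.ML.N ℚ n G X' :=
  Set.ncard_le_ncard (fields_mono n G h) (fields_fin h2 h3 n G X')

lemma N_small (h3 : S_DI) (n : ℕ) (G : Subgroup (Equiv.Perm (Fin n))) {X : ℝ} (h : X < 1) :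
    Pool.Agent.W670.ML.N ℚ n G X = 0 := by
  unfold Pool.Agent.W670.ML.N
  have he : fields ℚ n G X = ∅ := by
    rw [Set.eq_empty_iff_forall_notMem]
    rintro L ⟨_, nf, hX⟩
    refine absurd hX (not_le.mpr (lt_of_lt_of_le h ?_))
    exact Nat.one_le_cast.mpr (h3.2.2 ℚ L)
  rw [he, Set.ncard_empty]

lemma one_group (h1 : S_MI) (h2 : S_HE) (h3 : S_DI) (hU : Upper ℚ) (N m : ℕ) (hN : 2 ≤ N)
    (hm : 1 ≤ m) (ε : ℝ) (hε : 0 < ε) (H : Subgroup (Equiv.Perm (Fin N))) (hT : Trans H)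
    (hI : ∀ h ∈ H, h ≠ 1 → m ≤ ind h) :
    ∃ c : ℝ, 0 < c ∧ ∀ Y : ℝ, 0 < Y → (Pool.Agent.W670.ML.N ℚ N H Y : ℝ) ≤
      c * Y ^ ((1 : ℝ) / (m : ℝ) + ε) := by
  obtain ⟨m', hm'⟩ := (h1 N H hN hT).1
  have hmm : m ≤ m' := by
    obtain ⟨g, hg, hg1, hk⟩ := hm'.1
    rw [hk]
    exact hI g hg hg1
  obtain ⟨c, hc, X₀, hX⟩ := hU N H hN hT m' hm' ε hε
  set X₁ : ℝ := max X₀ 1 with hX1
  have hX1' : 1 ≤ X₁ := le_max_right _ _
  have hmpos : (0 : ℝ) < m := by exact_mod_cast hm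
  have he : (1 : ℝ) / (m' : ℝ) + ε ≤ (1 : ℝ) / (m : ℝ) + ε := by
    have : (m : ℝ) ≤ m' := by exact_mod_cast hmm
    have := one_div_le_one_div_of_le hmpos this
    linarith
  have hepos : 0 ≤ (1 : ℝ) / (m : ℝ) + ε := by positivity
  have hepos' : 0 ≤ (1 : ℝ) / (m' : ℝ) + ε := by positivity
  refine ⟨c * X₁ ^ ((1 : ℝ) / (m : ℝ) + ε), by positivity, ?_⟩
  intro Y hY
  by_cases hY1 : Y < 1
  · rw [N_small h3 N H hY1]
    simp only [Nat.cast_zero]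
    positivity
  · push Not at hY1
    have a1 : Pool.Agent.W670.ML.N ℚ N H Y ≤ Pool.Agent.W670.ML.N ℚ N H (max Y X₁) :=
      N_mono h2 h3 N H (le_max_left _ _)
    have a1' : (Pool.Agent.W670.ML.N ℚ N H Y : ℝ) ≤ Pool.Agent.W670.ML.N ℚ N H (max Y X₁) := by
      exact_mod_cast a1
    have a2 := hX (max Y X₁) ((le_max_left X₀ 1).trans (le_max_right Y X₁))
    have a3 : max Y X₁ ≤ Y * X₁ := by
      apply max_le
      · nlinarith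
      · nlinarith
    have a0 : (0 : ℝ) ≤ max Y X₁ := (hY.le).trans (le_max_left _ _)
    have a4 : (max Y X₁) ^ ((1 : ℝ) / (m' : ℝ) + ε) ≤ (Y * X₁) ^ ((1 : ℝ) / (m' : ℝ) + ε) :=
      Real.rpow_le_rpow a0 a3 hepos'
    have a5 : (1 : ℝ) ≤ Y * X₁ := by nlinarith
    have a6 : (Y * X₁) ^ ((1 : ℝ) / (m' : ℝ) + ε) ≤ (Y * X₁) ^ ((1 : ℝ) / (m : ℝ) + ε) :=
      Real.rpow_le_rpow_of_exponent_le a5 he
    have a7 : (Y * X₁) ^ ((1 : ℝ) / (m : ℝ) + ε)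
        = Y ^ ((1 : ℝ) / (m : ℝ) + ε) * X₁ ^ ((1 : ℝ) / (m : ℝ) + ε) :=
      Real.mul_rpow hY.le (by linarith)
    calc (Pool.Agent.W670.ML.N ℚ N H Y : ℝ) ≤ Pool.Agent.W670.ML.N ℚ N H (max Y X₁) := a1'
      _ ≤ c * (max Y X₁) ^ ((1 : ℝ) / (m' : ℝ) + ε) := a2.le
      _ ≤ c * (Y ^ ((1 : ℝ) / (m : ℝ) + ε) * X₁ ^ ((1 : ℝ) / (m : ℝ) + ε)) := by
          apply mul_le_mul_of_nonneg_left _ hc.le
          rw [← a7]
          exact a4.trans a6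
      _ = _ := by ring

theorem ub (h1 : S_MI) (h2 : S_HE) (h3 : S_DI) : S_UB := by
  intro hU N m hN hm ε hε
  have key : ∀ H : Subgroup (Equiv.Perm (Fin N)), ∃ c : ℝ, 0 < c ∧ (H ∈ bigInd N m →
      ∀ Y : ℝ, 0 < Y → (Pool.Agent.W670.ML.N ℚ N H Y : ℝ) ≤
      c * Y ^ ((1 : ℝ) / (m : ℝ) + ε)) := by
    intro H
    by_cases hH : H ∈ bigInd N m
    · have hH' := hH
      simp only [bigInd, Finset.mem_filter] at hH'
      obtain ⟨hT, hI⟩ := hH'.2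
      obtain ⟨c, hc, hc2⟩ := one_group h1 h2 h3 hU N m hN hm ε hε H hT hI
      exact ⟨c, hc, fun _ => hc2⟩
    · exact ⟨1, one_pos, fun h => absurd h hH⟩
  choose c hc0 hc using key
  refine ⟨1 + ∑ H ∈ bigInd N m, c H, ?_, ?_⟩
  · have : 0 ≤ ∑ H ∈ bigInd N m, c H := Finset.sum_nonneg fun H _ => (hc0 H).le
    linarith
  · intro Y hY
    have hYe : 0 ≤ Y ^ ((1 : ℝ) / (m : ℝ) + ε) := Real.rpow_nonneg hY.le _
    push_cast
    calc ∑ H ∈ bigInd N m, (Pool.Agent.W670.ML.N ℚ N H Y : ℝ)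
        ≤ ∑ H ∈ bigInd N m, c H * Y ^ ((1 : ℝ) / (m : ℝ) + ε) :=
          Finset.sum_le_sum fun H hH => hc H hH Y hY
      _ = (∑ H ∈ bigInd N m, c H) * Y ^ ((1 : ℝ) / (m : ℝ) + ε) := by rw [Finset.sum_mul]
      _ ≤ (1 + ∑ H ∈ bigInd N m, c H) * Y ^ ((1 : ℝ) / (m : ℝ) + ε) := by
          apply mul_le_mul_of_nonneg_right _ hYe
          linarith

end Pool.Agent.W557.ML
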